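import Mathlib

/-!
# Cyclopolytopes
-/

set_option autoImplicit false

open Polynomial

namespace Pool.Agent.X156.CY

/-- The vector `a^(r)` of the coefficients of the remainder of `t^r` on division by the `k`-th
cyclotomic polynomial. -/
noncomputable def root (k r : ℕ) : Fin (Nat.totient k) → ℝ :=
  fun s => (((X ^ r %ₘ cyclotomic k ℤ).coeff s : ℤ) : ℝ)

/-- The cyclopolytope `N_k`. -/
noncomputable def cyclopolytope (k : ℕ) : Set (Fin (Nat.totient k) → ℝ) :=
  convexHull ℝ {x | ∃ r, r < k ∧ x = root k r}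

/-- The polar. -/
def polar {d : ℕ} (P : Set (Fin d → ℝ)) : Set (Fin d → ℝ) :=
  {y | ∀ x ∈ P, ∑ i, x i * y i ≤ 1}

/-- `P` is reflexive: `P` is `d`-dimensional, the origin is an interior point of `P`, and all
vertices of the polar of `P` are integral. -/
def IsReflexive {d : ℕ} (P : Set (Fin d → ℝ)) : Prop :=
  (interior P).Nonempty ∧ (0 : Fin d → ℝ) ∈ interior P ∧
    ∀ y ∈ (polar P).extremePoints ℝ, ∀ i, ∃ m : ℤ, y i = m

/-- The linear functional `w` evaluated at the remainder of a polynomial. -/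
noncomputable def ev (k : ℕ) (w : Fin (Nat.totient k) → ℝ) (p : ℤ[X]) : ℝ :=
  ∑ s : Fin (Nat.totient k), (((p %ₘ cyclotomic k ℤ).coeff s : ℤ) : ℝ) * w s

theorem ev_add (k : ℕ) (w : Fin (Nat.totient k) → ℝ) (p q : ℤ[X]) :
    ev k w (p + q) = ev k w p + ev k w q := by
  unfold ev
  rw [← Finset.sum_add_distrib]
  refine Finset.sum_congr rfl fun s _ => ?_
  rw [add_modByMonic, coeff_add]
  push_cast
  ring

theorem ev_C_mul (k : ℕ) (w : Fin (Nat.totient k) → ℝ) (c : ℤ) (p : ℤ[X]) :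
    ev k w (C c * p) = c * ev k w p := by
  unfold ev
  rw [Finset.mul_sum]
  refine Finset.sum_congr rfl fun s _ => ?_
  rw [← smul_eq_C_mul, smul_modByMonic, coeff_smul, smul_eq_mul]
  push_cast
  ring

theorem ev_sum (k : ℕ) (w : Fin (Nat.totient k) → ℝ) {ι : Type*} (S : Finset ι) (p : ι → ℤ[X]) :
    ev k w (∑ i ∈ S, p i) = ∑ i ∈ S, ev k w (p i) := by
  classical
  induction S using Finset.induction_on with
  | empty => simp [ev, zero_modByMonic]
  | insert a S ha ih => rw [Finset.sum_insert ha, Finset.sum_insert ha, ev_add, ih]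

theorem ev_of_dvd (k : ℕ) (w : Fin (Nat.totient k) → ℝ) {p : ℤ[X]} (h : cyclotomic k ℤ ∣ p) :
    ev k w p = 0 := by
  unfold ev
  rw [(modByMonic_eq_zero_iff_dvd (cyclotomic.monic k ℤ)).2 h]
  simp

theorem ev_X_pow_lt (k : ℕ) (w : Fin (Nat.totient k) → ℝ) (s : Fin (Nat.totient k)) :
    ev k w (X ^ (s : ℕ)) = w s := by
  unfold ev
  have h1 : (X ^ (s : ℕ) : ℤ[X]) %ₘ cyclotomic k ℤ = X ^ (s : ℕ) := by
    rw [modByMonic_eq_self_iff (cyclotomic.monic k ℤ), degree_X_pow, degree_cyclotomic]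
    exact_mod_cast s.2
  rw [h1, Finset.sum_eq_single s]
  · rw [coeff_X_pow_self]
    simp
  · intro t _ ht
    rw [coeff_X_pow, if_neg (fun h => ht (Fin.ext h))]
    simp
  · intro h
    exact absurd (Finset.mem_univ s) h

theorem ev_root (k : ℕ) (w : Fin (Nat.totient k) → ℝ) (r : ℕ) :
    ev k w (X ^ r) = ∑ s, root k r s * w s := rfl

/-- The sums over the cosets of the subgroups of prime order vanish. -/
theorem ev_coset {k p q : ℕ} (hk : p * q = k) (hp : 2 ≤ p) (hq : 1 ≤ q)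
    (w : Fin (Nat.totient k) → ℝ) (r : ℕ) :
    ∑ j ∈ Finset.range p, ev k w (X ^ (r + q * j)) = 0 := by
  have h1 : q ∈ k.properDivisors := by
    rw [Nat.mem_properDivisors]
    refine ⟨⟨p, by rw [← hk]; ring⟩, ?_⟩
    rw [← hk]
    nlinarith
  have h2 := X_pow_sub_one_mul_cyclotomic_dvd_X_pow_sub_one_of_dvd ℤ h1
  have h3 : (X ^ k - 1 : ℤ[X]) = (X ^ q - 1) * ∑ j ∈ Finset.range p, (X ^ q) ^ j := by
    rw [mul_comm, geom_sum_mul, ← pow_mul, mul_comm q p, hk]
  rw [h3] at h2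
  have h4 : (X ^ q - 1 : ℤ[X]) ≠ 0 := by
    have := (monic_X_pow_sub_C (1 : ℤ) (show q ≠ 0 by omega)).ne_zero
    rwa [map_one] at this
  have h5 : cyclotomic k ℤ ∣ ∑ j ∈ Finset.range p, (X ^ q) ^ j :=
    (mul_dvd_mul_iff_left h4).1 h2
  rw [← ev_sum]
  apply ev_of_dvd
  have h6 : ∑ j ∈ Finset.range p, (X ^ (r + q * j) : ℤ[X]) =
      X ^ r * ∑ j ∈ Finset.range p, (X ^ q) ^ j := by
    rw [Finset.mul_sum]
    exact Finset.sum_congr rfl fun j _ => by rw [pow_add, pow_mul]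
  rw [h6]
  exact Dvd.dvd.mul_left h5 _

theorem mem_polar_iff {k : ℕ} {y : Fin (Nat.totient k) → ℝ} :
    y ∈ polar (cyclopolytope k) ↔ ∀ r, r < k → ev k y (X ^ r) ≤ 1 := by
  constructor
  · intro h r hr
    rw [ev_root]
    exact h _ (subset_convexHull ℝ _ ⟨r, hr, rfl⟩)
  · intro h x hx
    have hconv : Convex ℝ {x : Fin (Nat.totient k) → ℝ | ∑ i, x i * y i ≤ 1} := by
      intro a ha b hb s t hs ht hst
      have h1 : ∑ i, (s • a + t • b) i * y i = s * ∑ i, a i * y i + t * ∑ i, b i * y i := by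
        rw [Finset.mul_sum, Finset.mul_sum, ← Finset.sum_add_distrib]
        refine Finset.sum_congr rfl fun i _ => ?_
        simp only [Pi.add_apply, Pi.smul_apply, smul_eq_mul]
        ring
      have ha' : ∑ i, a i * y i ≤ 1 := ha
      have hb' : ∑ i, b i * y i ≤ 1 := hb
      change ∑ i, (s • a + t • b) i * y i ≤ 1
      rw [h1]
      nlinarith
    have h2 : {x | ∃ r, r < k ∧ x = root k r} ⊆
        {x : Fin (Nat.totient k) → ℝ | ∑ i, x i * y i ≤ 1} := by
      rintro _ ⟨r, hr, rfl⟩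
      have := h r hr
      rw [ev_root] at this
      exact this
    exact convexHull_min h2 hconv hx

end Pool.Agent.X156.CY
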