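import Pool.Agent.X156.CY.Basic

/-!
# A half-integral vertex of the polar of `N_105`
-/

set_option autoImplicit false

open Polynomial

namespace Pool.Agent.X156.CY

theorem cyc3 : cyclotomic 3 ℤ = X ^ 2 + X + 1 := cyclotomic_three ℤ

theorem cyc15 : cyclotomic 15 ℤ = X ^ 8 - X ^ 7 + X ^ 5 - X ^ 4 + X ^ 3 - X + 1 := by
  have h := cyclotomic_expand_eq_cyclotomic_mul (p := 5) (n := 3) (by norm_num) (by norm_num) ℤ
  have h3 : cyclotomic 3 ℤ ≠ 0 := cyclotomic_ne_zero 3 ℤ
  apply mul_right_cancel₀ h3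
  rw [show (15 : ℕ) = 3 * 5 from rfl, ← h, cyc3]
  simp only [map_add, map_pow, expand_X, map_one]
  ring

theorem cyc105 : cyclotomic 105 ℤ = X ^ 48 + X ^ 47 + X ^ 46 - X ^ 43 - X ^ 42 - 2 * X ^ 41 - X ^ 40 - X ^ 39 + X ^ 36 + X ^
      35 + X ^ 34 + X ^ 33 + X ^ 32 + X ^ 31 - X ^ 28 - X ^ 26 - X ^ 24 - X ^ 22 - X ^ 20 + X
      ^ 17 + X ^ 16 + X ^ 15 + X ^ 14 + X ^ 13 + X ^ 12 - X ^ 9 - X ^ 8 - 2 * X ^ 7 - X ^ 6 -
      X ^ 5 + X ^ 2 + X + 1 := by
  have h := cyclotomic_expand_eq_cyclotomic_mul (p := 7) (n := 15) (by norm_num) (by norm_num) ℤ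
  have h3 : cyclotomic 15 ℤ ≠ 0 := cyclotomic_ne_zero 15 ℤ
  apply mul_right_cancel₀ h3
  rw [show (105 : ℕ) = 15 * 7 from rfl, ← h, cyc15]
  simp only [map_add, map_sub, map_pow, expand_X, map_one]
  ring

/-- twice the values of the functional at the roots of unity -/
def fl : List ℤ :=
  [0, -4, 2, 0, 2, 2, 2, 2, -2, 2, -4, 2, 2, 0, 2, 2, 2, 1, -4, -3, 2, -4, 2, 2, -1, 0, -1,
    2, -4, 2, -4, -2, 2, 2, 2, -2, 2, -1, -2, 2, 2, -2, 2, 2, -3, 2, 0, 1, -2, -2, -4, 1, 2,
    2, 1, -4, 2, -4, -4, -1, 2, 2, -4, 2, -2, 2, 2, -4, -4, -4, 2, 2, -1, 2, -4, -4, 0, -4, 0,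
    1, 2, -2, -3, 2, 0, 2, -3, -3, 2, 2, 2, 2, 2, 2, 2, -2, -1, 2, 2, 0, 2, 0, 2, 2, 2]

/-- twice the value -/
def f2 (r : ℕ) : ℤ := fl.getD r 0

theorem f2_rec : ∀ n < 57, f2 n + f2 (n + 1) + f2 (n + 2) - f2 (n + 5) - f2 (n + 6) - 2 * f2 (n + 7) - f2 (n + 8) -
      f2 (n + 9) + f2 (n + 12) + f2 (n + 13) + f2 (n + 14) + f2 (n + 15) + f2 (n + 16) + f2 (n
      + 17) - f2 (n + 20) - f2 (n + 22) - f2 (n + 24) - f2 (n + 26) - f2 (n + 28) + f2 (n +
      31) + f2 (n + 32) + f2 (n + 33) + f2 (n + 34) + f2 (n + 35) + f2 (n + 36) - f2 (n + 39)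
      - f2 (n + 40) - 2 * f2 (n + 41) - f2 (n + 42) - f2 (n + 43) + f2 (n + 46) + f2 (n + 47)
      + f2 (n + 48) = 0 := by
  decide

theorem f2_le : ∀ n < 105, f2 n ≤ 2 := by
  decide

/-- the recurrence of the values of a functional -/
theorem ev_rec (w : Fin (Nat.totient 105) → ℝ) (g : ℕ → ℝ) (hg : ∀ n, g n = ev 105 w (X ^ n))
    (n : ℕ) : g n + g (n + 1) + g (n + 2) - g (n + 5) - g (n + 6) - 2 * g (n + 7) - g (n + 8) - g (n +
      9) + g (n + 12) + g (n + 13) + g (n + 14) + g (n + 15) + g (n + 16) + g (n + 17) - g (n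
      + 20) - g (n + 22) - g (n + 24) - g (n + 26) - g (n + 28) + g (n + 31) + g (n + 32) + g
      (n + 33) + g (n + 34) + g (n + 35) + g (n + 36) - g (n + 39) - g (n + 40) - 2 * g (n +
      41) - g (n + 42) - g (n + 43) + g (n + 46) + g (n + 47) + g (n + 48) = 0 := by
  have h : ev 105 w (cyclotomic 105 ℤ * X ^ n) = 0 := ev_of_dvd 105 w (dvd_mul_right _ _)
  have hC : ∀ (c : ℤ) (m : ℕ), ev 105 w (C c * X ^ m) = c * g m := fun c m => by
    rw [ev_C_mul, hg]
  have hs : cyclotomic 105 ℤ * X ^ n = C (1) * X ^ n +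
      C (1) * X ^ (n + 1) +
      C (1) * X ^ (n + 2) +
      C (-1) * X ^ (n + 5) +
      C (-1) * X ^ (n + 6) +
      C (-2) * X ^ (n + 7) +
      C (-1) * X ^ (n + 8) +
      C (-1) * X ^ (n + 9) +
      C (1) * X ^ (n + 12) +
      C (1) * X ^ (n + 13) +
      C (1) * X ^ (n + 14) +
      C (1) * X ^ (n + 15) +
      C (1) * X ^ (n + 16) +
      C (1) * X ^ (n + 17) +
      C (-1) * X ^ (n + 20) +
      C (-1) * X ^ (n + 22) +
      C (-1) * X ^ (n + 24) +
      C (-1) * X ^ (n + 26) +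
      C (-1) * X ^ (n + 28) +
      C (1) * X ^ (n + 31) +
      C (1) * X ^ (n + 32) +
      C (1) * X ^ (n + 33) +
      C (1) * X ^ (n + 34) +
      C (1) * X ^ (n + 35) +
      C (1) * X ^ (n + 36) +
      C (-1) * X ^ (n + 39) +
      C (-1) * X ^ (n + 40) +
      C (-2) * X ^ (n + 41) +
      C (-1) * X ^ (n + 42) +
      C (-1) * X ^ (n + 43) +
      C (1) * X ^ (n + 46) +
      C (1) * X ^ (n + 47) +
      C (1) * X ^ (n + 48) := by
    rw [cyc105]
    simp only [map_one, map_neg, map_ofNat]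
    ring
  rw [hs] at h
  simp only [ev_add, hC] at h
  push_cast at h
  linarith

/-- A functional that vanishes at the roots of unity where the vertex attains the value one is
zero. -/
theorem elim (g : ℕ → ℝ) (E3 : ∀ r < 35, g r + g (r + 35) + g (r + 70) = 0)
    (E5 : ∀ r < 21, g r + g (r + 21) + g (r + 42) + g (r + 63) + g (r + 84) = 0)
    (E7 : ∀ r < 15, g r + g (r + 15) + g (r + 30) + g (r + 45) + g (r + 60) + g (r + 75) +
      g (r + 90) = 0)
    (hz : ∀ r < 105, f2 r = 2 → g r = 0) : ∀ r < 105, g r = 0 := by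
  have h2 : g 2 = 0 := hz 2 (by norm_num) (by decide)
  have h4 : g 4 = 0 := hz 4 (by norm_num) (by decide)
  have h5 : g 5 = 0 := hz 5 (by norm_num) (by decide)
  have h6 : g 6 = 0 := hz 6 (by norm_num) (by decide)
  have h7 : g 7 = 0 := hz 7 (by norm_num) (by decide)
  have h9 : g 9 = 0 := hz 9 (by norm_num) (by decide)
  have h11 : g 11 = 0 := hz 11 (by norm_num) (by decide)
  have h12 : g 12 = 0 := hz 12 (by norm_num) (by decide)
  have h14 : g 14 = 0 := hz 14 (by norm_num) (by decide)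
  have h15 : g 15 = 0 := hz 15 (by norm_num) (by decide)
  have h16 : g 16 = 0 := hz 16 (by norm_num) (by decide)
  have h20 : g 20 = 0 := hz 20 (by norm_num) (by decide)
  have h22 : g 22 = 0 := hz 22 (by norm_num) (by decide)
  have h23 : g 23 = 0 := hz 23 (by norm_num) (by decide)
  have h27 : g 27 = 0 := hz 27 (by norm_num) (by decide)
  have h29 : g 29 = 0 := hz 29 (by norm_num) (by decide)
  have h32 : g 32 = 0 := hz 32 (by norm_num) (by decide)
  have h33 : g 33 = 0 := hz 33 (by norm_num) (by decide)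
  have h34 : g 34 = 0 := hz 34 (by norm_num) (by decide)
  have h36 : g 36 = 0 := hz 36 (by norm_num) (by decide)
  have h39 : g 39 = 0 := hz 39 (by norm_num) (by decide)
  have h40 : g 40 = 0 := hz 40 (by norm_num) (by decide)
  have h42 : g 42 = 0 := hz 42 (by norm_num) (by decide)
  have h43 : g 43 = 0 := hz 43 (by norm_num) (by decide)
  have h45 : g 45 = 0 := hz 45 (by norm_num) (by decide)
  have h52 : g 52 = 0 := hz 52 (by norm_num) (by decide)
  have h53 : g 53 = 0 := hz 53 (by norm_num) (by decide)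
  have h56 : g 56 = 0 := hz 56 (by norm_num) (by decide)
  have h60 : g 60 = 0 := hz 60 (by norm_num) (by decide)
  have h61 : g 61 = 0 := hz 61 (by norm_num) (by decide)
  have h63 : g 63 = 0 := hz 63 (by norm_num) (by decide)
  have h65 : g 65 = 0 := hz 65 (by norm_num) (by decide)
  have h66 : g 66 = 0 := hz 66 (by norm_num) (by decide)
  have h70 : g 70 = 0 := hz 70 (by norm_num) (by decide)
  have h71 : g 71 = 0 := hz 71 (by norm_num) (by decide)
  have h73 : g 73 = 0 := hz 73 (by norm_num) (by decide)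
  have h80 : g 80 = 0 := hz 80 (by norm_num) (by decide)
  have h83 : g 83 = 0 := hz 83 (by norm_num) (by decide)
  have h85 : g 85 = 0 := hz 85 (by norm_num) (by decide)
  have h88 : g 88 = 0 := hz 88 (by norm_num) (by decide)
  have h89 : g 89 = 0 := hz 89 (by norm_num) (by decide)
  have h90 : g 90 = 0 := hz 90 (by norm_num) (by decide)
  have h91 : g 91 = 0 := hz 91 (by norm_num) (by decide)
  have h92 : g 92 = 0 := hz 92 (by norm_num) (by decide)
  have h93 : g 93 = 0 := hz 93 (by norm_num) (by decide)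
  have h94 : g 94 = 0 := hz 94 (by norm_num) (by decide)
  have h97 : g 97 = 0 := hz 97 (by norm_num) (by decide)
  have h98 : g 98 = 0 := hz 98 (by norm_num) (by decide)
  have h100 : g 100 = 0 := hz 100 (by norm_num) (by decide)
  have h102 : g 102 = 0 := hz 102 (by norm_num) (by decide)
  have h103 : g 103 = 0 := hz 103 (by norm_num) (by decide)
  have h104 : g 104 = 0 := hz 104 (by norm_num) (by decide)
  have e1 : g 1 + g 36 + g 71 = 0 := E3 1 (by norm_num)
  have h1 : g 1 = 0 := by linarith only [e1, h36, h71]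
  have e74 : g 4 + g 39 + g 74 = 0 := E3 4 (by norm_num)
  have h74 : g 74 = 0 := by linarith only [e74, h4, h39]
  have e75 : g 5 + g 40 + g 75 = 0 := E3 5 (by norm_num)
  have h75 : g 75 = 0 := by linarith only [e75, h5, h40]
  have e77 : g 7 + g 42 + g 77 = 0 := E3 7 (by norm_num)
  have h77 : g 77 = 0 := by linarith only [e77, h7, h42]
  have e10 : g 10 + g 45 + g 80 = 0 := E3 10 (by norm_num)
  have h10 : g 10 = 0 := by linarith only [e10, h45, h80]
  have e50 : g 15 + g 50 + g 85 = 0 := E3 15 (by norm_num)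
  have h50 : g 50 = 0 := by linarith only [e50, h15, h85]
  have e18 : g 18 + g 53 + g 88 = 0 := E3 18 (by norm_num)
  have h18 : g 18 = 0 := by linarith only [e18, h53, h88]
  have e55 : g 20 + g 55 + g 90 = 0 := E3 20 (by norm_num)
  have h55 : g 55 = 0 := by linarith only [e55, h20, h90]
  have e21 : g 21 + g 56 + g 91 = 0 := E3 21 (by norm_num)
  have h21 : g 21 = 0 := by linarith only [e21, h56, h91]
  have e57 : g 22 + g 57 + g 92 = 0 := E3 22 (by norm_num)
  have h57 : g 57 = 0 := by linarith only [e57, h22, h92]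
  have e58 : g 23 + g 58 + g 93 = 0 := E3 23 (by norm_num)
  have h58 : g 58 = 0 := by linarith only [e58, h23, h93]
  have e62 : g 27 + g 62 + g 97 = 0 := E3 27 (by norm_num)
  have h62 : g 62 = 0 := by linarith only [e62, h27, h97]
  have e28 : g 28 + g 63 + g 98 = 0 := E3 28 (by norm_num)
  have h28 : g 28 = 0 := by linarith only [e28, h63, h98]
  have e30 : g 30 + g 65 + g 100 = 0 := E3 30 (by norm_num)
  have h30 : g 30 = 0 := by linarith only [e30, h65, h100]
  have e67 : g 32 + g 67 + g 102 = 0 := E3 32 (by norm_num)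
  have h67 : g 67 = 0 := by linarith only [e67, h32, h102]
  have e68 : g 33 + g 68 + g 103 = 0 := E3 33 (by norm_num)
  have h68 : g 68 = 0 := by linarith only [e68, h33, h103]
  have e69 : g 34 + g 69 + g 104 = 0 := E3 34 (by norm_num)
  have h69 : g 69 = 0 := by linarith only [e69, h34, h104]
  have e64 : g 1 + g 22 + g 43 + g 64 + g 85 = 0 := E5 1 (by norm_num)
  have h64 : g 64 = 0 := by linarith only [e64, h1, h22, h43, h85]
  have e48 : g 6 + g 27 + g 48 + g 69 + g 90 = 0 := E5 6 (by norm_num)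
  have h48 : g 48 = 0 := by linarith only [e48, h6, h27, h69, h90]
  have e49 : g 7 + g 28 + g 49 + g 70 + g 91 = 0 := E5 7 (by norm_num)
  have h49 : g 49 = 0 := by linarith only [e49, h7, h28, h70, h91]
  have e8 : g 8 + g 29 + g 50 + g 71 + g 92 = 0 := E5 8 (by norm_num)
  have h8 : g 8 = 0 := by linarith only [e8, h29, h50, h71, h92]
  have e31 : g 10 + g 31 + g 52 + g 73 + g 94 = 0 := E5 10 (by norm_num)
  have h31 : g 31 = 0 := by linarith only [e31, h10, h52, h73, h94]
  have e95 : g 11 + g 32 + g 53 + g 74 + g 95 = 0 := E5 11 (by norm_num)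
  have h95 : g 95 = 0 := by linarith only [e95, h11, h32, h53, h74]
  have e35 : g 14 + g 35 + g 56 + g 77 + g 98 = 0 := E5 14 (by norm_num)
  have h35 : g 35 = 0 := by linarith only [e35, h14, h56, h77, h98]
  have e81 : g 18 + g 39 + g 60 + g 81 + g 102 = 0 := E5 18 (by norm_num)
  have h81 : g 81 = 0 := by linarith only [e81, h18, h39, h60, h102]
  have e41 : g 20 + g 41 + g 62 + g 83 + g 104 = 0 := E5 20 (by norm_num)
  have h41 : g 41 = 0 := by linarith only [e41, h20, h62, h83, h104]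
  have e0 : g 0 + g 15 + g 30 + g 45 + g 60 + g 75 + g 90 = 0 := E7 0 (by norm_num)
  have h0 : g 0 = 0 := by linarith only [e0, h15, h30, h45, h60, h75, h90]
  have e38 : g 8 + g 23 + g 38 + g 53 + g 68 + g 83 + g 98 = 0 := E7 8 (by norm_num)
  have h38 : g 38 = 0 := by linarith only [e38, h8, h23, h53, h68, h83, h98]
  have e25 : g 10 + g 25 + g 40 + g 55 + g 70 + g 85 + g 100 = 0 := E7 10 (by norm_num)
  have h25 : g 25 = 0 := by linarith only [e25, h10, h40, h55, h70, h85, h100]
  have e13 : g 13 + g 28 + g 43 + g 58 + g 73 + g 88 + g 103 = 0 := E7 13 (by norm_num)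
  have h13 : g 13 = 0 := by linarith only [e13, h28, h43, h58, h73, h88, h103]
  have e3 : g 3 + g 38 + g 73 = 0 := E3 3 (by norm_num)
  have h3 : g 3 = 0 := by linarith only [e3, h38, h73]
  have e76 : g 6 + g 41 + g 76 = 0 := E3 6 (by norm_num)
  have h76 : g 76 = 0 := by linarith only [e76, h6, h41]
  have e78 : g 8 + g 43 + g 78 = 0 := E3 8 (by norm_num)
  have h78 : g 78 = 0 := by linarith only [e78, h8, h43]
  have e46 : g 11 + g 46 + g 81 = 0 := E3 11 (by norm_num)
  have h46 : g 46 = 0 := by linarith only [e46, h11, h81]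
  have e84 : g 14 + g 49 + g 84 = 0 := E3 14 (by norm_num)
  have h84 : g 84 = 0 := by linarith only [e84, h14, h49]
  have e99 : g 29 + g 64 + g 99 = 0 := E3 29 (by norm_num)
  have h99 : g 99 = 0 := by linarith only [e99, h29, h64]
  have e101 : g 31 + g 66 + g 101 = 0 := E3 31 (by norm_num)
  have h101 : g 101 = 0 := by linarith only [e101, h31, h66]
  have c2 : g 2 + g 37 + g 72 = 0 := E3 2 (by norm_num)
  have c9 : g 9 + g 44 + g 79 = 0 := E3 9 (by norm_num)
  have c12 : g 12 + g 47 + g 82 = 0 := E3 12 (by norm_num)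
  have c16 : g 16 + g 51 + g 86 = 0 := E3 16 (by norm_num)
  have c17 : g 17 + g 52 + g 87 = 0 := E3 17 (by norm_num)
  have c19 : g 19 + g 54 + g 89 = 0 := E3 19 (by norm_num)
  have c24 : g 24 + g 59 + g 94 = 0 := E3 24 (by norm_num)
  have c26 : g 26 + g 61 + g 96 = 0 := E3 26 (by norm_num)
  have c37 : g 2 + g 23 + g 44 + g 65 + g 86 = 0 := E5 2 (by norm_num)
  have c38 : g 3 + g 24 + g 45 + g 66 + g 87 = 0 := E5 3 (by norm_num)
  have c40 : g 5 + g 26 + g 47 + g 68 + g 89 = 0 := E5 5 (by norm_num)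
  have c44 : g 9 + g 30 + g 51 + g 72 + g 93 = 0 := E5 9 (by norm_num)
  have c47 : g 12 + g 33 + g 54 + g 75 + g 96 = 0 := E5 12 (by norm_num)
  have c58 : g 2 + g 17 + g 32 + g 47 + g 62 + g 77 + g 92 = 0 := E7 2 (by norm_num)
  have c60 : g 4 + g 19 + g 34 + g 49 + g 64 + g 79 + g 94 = 0 := E7 4 (by norm_num)
  have c62 : g 6 + g 21 + g 36 + g 51 + g 66 + g 81 + g 96 = 0 := E7 6 (by norm_num)
  have h17 : g 17 = 0 := by linarith only [c58, c40, c26, c62, c16, c60, c19, c47, c37, c9, h2, h4, h5, h6, h9, h12, h16, h21, h23, h32, h33, h34, h36, h49, h61, h62, h64, h65, h66, h68, h75, h77, h81, h89, h92, h94]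
  have h19 : g 19 = 0 := by linarith only [c19, c47, c62, c16, c60, c37, c9, h2, h4, h6, h9, h12, h16, h21, h23, h33, h34, h36, h49, h64, h65, h66, h75, h81, h89, h94]
  have h24 : g 24 = 0 := by linarith only [c38, c58, c17, c40, c26, c62, c16, c60, c19, c47, c37, c9, h2, h3, h4, h5, h6, h9, h12, h16, h21, h23, h32, h33, h34, h36, h45, h49, h52, h61, h62, h64, h65, h66, h68, h75, h77, h81, h89, h92, h94]
  have h26 : g 26 = 0 := by linarith only [c26, c62, c16, c60, c19, c47, c37, c9, h2, h4, h6, h9, h12, h16, h21, h23, h33, h34, h36, h49, h61, h64, h65, h66, h75, h81, h89, h94]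
  have h37 : g 37 = 0 := by linarith only [c2, c44, c16, c60, c19, c47, c37, c9, c62, h2, h4, h6, h9, h12, h16, h21, h23, h30, h33, h34, h36, h49, h64, h65, h66, h75, h81, h89, h93, h94]
  have h44 : g 44 = 0 := by linarith only [c60, c19, c47, c9, c62, c16, c37, h2, h4, h6, h9, h12, h16, h21, h23, h33, h34, h36, h49, h64, h65, h66, h75, h81, h89, h94]
  have h47 : g 47 = 0 := by linarith only [c40, c26, c62, c16, c60, c19, c47, c37, c9, h2, h4, h5, h6, h9, h12, h16, h21, h23, h33, h34, h36, h49, h61, h64, h65, h66, h68, h75, h81, h89, h94]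
  have h51 : g 51 = 0 := by linarith only [c16, c60, c19, c47, c37, c9, c62, h2, h4, h6, h9, h12, h16, h21, h23, h33, h34, h36, h49, h64, h65, h66, h75, h81, h89, h94]
  have h54 : g 54 = 0 := by linarith only [c47, c62, c16, c60, c19, c37, c9, h2, h4, h6, h9, h12, h16, h21, h23, h33, h34, h36, h49, h64, h65, h66, h75, h81, h89, h94]
  have h59 : g 59 = 0 := by linarith only [c38, c24, c58, c17, c40, c26, c62, c16, c60, c19, c47, c37, c9, h2, h3, h4, h5, h6, h9, h12, h16, h21, h23, h32, h33, h34, h36, h45, h49, h52, h61, h62, h64, h65, h66, h68, h75, h77, h81, h89, h92, h94]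
  have h72 : g 72 = 0 := by linarith only [c44, c16, c60, c19, c47, c37, c9, c62, h2, h4, h6, h9, h12, h16, h21, h23, h30, h33, h34, h36, h49, h64, h65, h66, h75, h81, h89, h93, h94]
  have h79 : g 79 = 0 := by linarith only [c60, c19, c47, c62, c16, c37, c9, h2, h4, h6, h9, h12, h16, h21, h23, h33, h34, h36, h49, h64, h65, h66, h75, h81, h89, h94]
  have h82 : g 82 = 0 := by linarith only [c40, c26, c12, c62, c16, c60, c19, c47, c37, c9, h2, h4, h5, h6, h9, h12, h16, h21, h23, h33, h34, h36, h49, h61, h64, h65, h66, h68, h75, h81, h89, h94]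
  have h86 : g 86 = 0 := by linarith only [c60, c19, c47, c37, c9, c62, c16, h2, h4, h6, h9, h12, h16, h21, h23, h33, h34, h36, h49, h64, h65, h66, h75, h81, h89, h94]
  have h87 : g 87 = 0 := by linarith only [c58, c17, c40, c26, c62, c16, c60, c19, c47, c37, c9, h2, h4, h5, h6, h9, h12, h16, h21, h23, h32, h33, h34, h36, h49, h52, h61, h62, h64, h65, h66, h68, h75, h77, h81, h89, h92, h94]
  have h96 : g 96 = 0 := by linarith only [c62, c16, c60, c19, c47, c37, c9, h2, h4, h6, h9, h12, h16, h21, h23, h33, h34, h36, h49, h64, h65, h66, h75, h81, h89, h94]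
  intro r hr
  interval_cases r
  · exact h0
  · exact h1
  · exact h2
  · exact h3
  · exact h4
  · exact h5
  · exact h6
  · exact h7
  · exact h8
  · exact h9
  · exact h10
  · exact h11
  · exact h12
  · exact h13
  · exact h14
  · exact h15
  · exact h16
  · exact h17
  · exact h18
  · exact h19
  · exact h20
  · exact h21
  · exact h22
  · exact h23
  · exact h24
  · exact h25
  · exact h26
  · exact h27
  · exact h28
  · exact h29
  · exact h30
  · exact h31
  · exact h32
  · exact h33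
  · exact h34
  · exact h35
  · exact h36
  · exact h37
  · exact h38
  · exact h39
  · exact h40
  · exact h41
  · exact h42
  · exact h43
  · exact h44
  · exact h45
  · exact h46
  · exact h47
  · exact h48
  · exact h49
  · exact h50
  · exact h51
  · exact h52
  · exact h53
  · exact h54
  · exact h55
  · exact h56
  · exact h57
  · exact h58
  · exact h59
  · exact h60
  · exact h61
  · exact h62
  · exact h63
  · exact h64
  · exact h65
  · exact h66
  · exact h67
  · exact h68
  · exact h69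
  · exact h70
  · exact h71
  · exact h72
  · exact h73
  · exact h74
  · exact h75
  · exact h76
  · exact h77
  · exact h78
  · exact h79
  · exact h80
  · exact h81
  · exact h82
  · exact h83
  · exact h84
  · exact h85
  · exact h86
  · exact h87
  · exact h88
  · exact h89
  · exact h90
  · exact h91
  · exact h92
  · exact h93
  · exact h94
  · exact h95
  · exact h96
  · exact h97
  · exact h98
  · exact h99
  · exact h100
  · exact h101
  · exact h102
  · exact h103
  · exact h104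

end Pool.Agent.X156.CY
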